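import Pool.Agent.H78.GX.H78.GS.TA3

/-!
# Theorem (G), section 3a: the conclusion
-/

set_option autoImplicit false

open Finset Pool.Agent.H6.N4D Pool.Agent.H78.GX.H6.N4D Pool.Agent.H78.GX

namespace Pool.Agent.H78.GX.H78.GS

/-- BUN. There is no bundle with the relations. -/
def T_BUN : Prop := ∀ (B : ℕ) (c X₁ : ℝ), Gap B c X₁ → ∀ (r₀ : ℕ) (c₀ : ℝ), 0 < c₀ →
  ∃ (K : ℕ) (ε e₀ X₀ : ℝ), 1 ≤ K ∧ 0 < ε ∧ 0 < e₀ ∧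
    ∀ (S : Par) (F : ℤ → Finset ℕ) (θ φ : ℤ → ℕ → ℝ), Okx S → S.K = K → X₀ ≤ S.X →
      25 / 2 * S.K * S.L ≤ S.N * S.h → ¬ Bnd S ε e₀ c₀ r₀ F θ φ

end Pool.Agent.H78.GX.H78.GS
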