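import Pool.Agent.H78.GX.H78.GS.TA5
import Pool.Agent.H78.GX.H83.GS.TX

/-!
# Theorem (G), section 3a, group F: targets (from fractions to functions twisted by characters)
-/

set_option autoImplicit false

open Finset Pool.Agent.H6.N4D Pool.Agent.H78.GX.H6.N4D Pool.Agent.H78.GX

namespace Pool.Agent.H78.GX.H78.GS

/-- the phase of the sheet `j` at the fraction `a / b` -/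
noncomputable def ps (S : Par) (φ : ℤ → ℕ → ℝ) (T : ℝ) (b a : ℕ) (t : ℤ) (j : ℕ) : ℝ :=
  φ t j - (a : ℝ) / b * S.n t - T * Real.log (S.n t) + T * (S.h * t)

/-- all sheets over `t` lie at fractions with denominators at most `b₀` -/
def Fr (S : Par) (e₁ ν : ℝ) (θ : ℤ → ℕ → ℝ) (F : ℤ → Finset ℕ) (T : ℝ) (b₀ : ℕ) (t : ℤ) : Prop :=
  ∀ j ∈ F t, ∃ b a : ℕ, 1 ≤ b ∧ b ≤ b₀ ∧ At S e₁ ν θ T b a t j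

/-- RAS. Fractions with bounded denominators are separated. -/
def T_RAS : Prop := ∀ b₀ b b' a a' : ℕ, 1 ≤ b → b ≤ b₀ → 1 ≤ b' → b' ≤ b₀ →
  nd ((a : ℝ) / b - (a' : ℝ) / b') < 1 / (b₀ : ℝ) ^ 2 → ∃ k : ℤ, (a : ℝ) / b - (a' : ℝ) / b' = k

/-- PHE. The phases along the edge of a prime number. -/
def T_PHE : Prop := ∀ (K b₀ : ℕ) (ζ : ℝ), 1 ≤ K → 0 < ζ → ∃ X₀ : ℝ,
  ∀ (S : Par) (e₀ e₁ ν T : ℝ) (θ φ : ℤ → ℕ → ℝ) (p b a a' : ℕ) (t : ℤ) (j i : ℕ), Okx S →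
    S.K = K → X₀ ≤ S.X → 0 ≤ e₀ → e₀ ≤ ζ / 2 → 0 < e₁ → e₁ ≤ 1 → 0 ≤ ν → ν ≤ 1 →
    |T| ≤ e₁ / S.rho ^ 2 → t ∈ S.I → t - S.l p ∈ S.I → p ∈ S.Q → 1 ≤ b → b ≤ b₀ →
    p * a ≡ a' [MOD b] → RE S e₀ θ φ p t j i → At S e₁ ν θ T b a t j →
    nd (ps S φ T b a' (t - S.l p) i - ps S φ T b a t j - 1 / 2) ≤ ζ

/-- PHS. The phases under small shifts. -/
def T_PHS : Prop := ∀ (K : ℕ) (ζ : ℝ), 1 ≤ K → 0 < ζ → ∃ X₀ : ℝ,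
  ∀ (S : Par) (e₀ e₁ ν T : ℝ) (θ φ : ℤ → ℕ → ℝ) (w b a : ℕ) (t : ℤ) (j i : ℕ), Okx S →
    S.K = K → X₀ ≤ S.X → 0 ≤ e₀ → e₀ ≤ ζ / 4 → 0 < e₁ → e₁ ≤ ζ / 4 → e₁ ≤ 1 → 0 ≤ ν → ν ≤ 1 →
    |T| ≤ e₁ / S.rho ^ 2 → t ∈ S.I → t + (w : ℤ) ∈ S.I → w ≤ S.V → 1 ≤ b →
    RS S e₀ θ φ w t j i → At S e₁ ν θ T b a t j →
    nd (ps S φ T b a (t + w) i - ps S φ T b a t j) ≤ ζ

/-- LCE. The frequencies along the edge of a prime number. -/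
def T_LCE : Prop := ∀ K : ℕ, 1 ≤ K → ∃ X₀ : ℝ,
  ∀ (S : Par) (e₀ e₁ ν T : ℝ) (θ φ : ℤ → ℕ → ℝ) (p b a a' : ℕ) (t : ℤ) (j i : ℕ), Okx S →
    S.K = K → X₀ ≤ S.X → 0 ≤ e₀ → e₀ ≤ 1 / 32 → 0 < e₁ → e₁ ≤ 1 / 32 → 0 ≤ ν → ν ≤ 1 →
    |T| ≤ e₁ / S.rho ^ 2 → t ∈ S.I → t - S.l p ∈ S.I → p ∈ S.Q → 1 ≤ b →
    p * a ≡ a' [MOD b] → RE S e₀ θ φ p t j i → At S e₁ ν θ T b a t j →
    nd (fh S θ T (t - S.l p) i - (a' : ℝ) / b) ≤ 1 / (8 * (S.rho * S.x (t - S.l p)))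

/-- LCS. The frequencies under small shifts. -/
def T_LCS : Prop := ∀ K : ℕ, 1 ≤ K → ∃ X₀ : ℝ,
  ∀ (S : Par) (e₀ e₁ ν T : ℝ) (θ φ : ℤ → ℕ → ℝ) (w b a : ℕ) (t : ℤ) (j i : ℕ), Okx S →
    S.K = K → X₀ ≤ S.X → 0 ≤ e₀ → e₀ ≤ 1 / 32 → 0 < e₁ → e₁ ≤ 1 / 32 → 0 ≤ ν → ν ≤ 1 →
    |T| ≤ e₁ / S.rho ^ 2 → t ∈ S.I → t + (w : ℤ) ∈ S.I → w ≤ S.V → 1 ≤ b →
    RS S e₀ θ φ w t j i → At S e₁ ν θ T b a t j →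
    nd (fh S θ T (t + w) i - (a : ℝ) / b) ≤ 1 / (8 * (S.rho * S.x (t + w)))

/-- FAE. The sums of the phases along the edge of a prime number. -/
def T_FAE : Prop := ∀ (K b₀ : ℕ) (ζ : ℝ), 1 ≤ K → 0 < ζ → ∃ X₀ : ℝ,
  ∀ (S : Par) (e₀ e₁ ν T : ℝ) (θ φ : ℤ → ℕ → ℝ) (F : ℤ → Finset ℕ) (p b a a' : ℕ) (t : ℤ),
    Okx S → S.K = K → X₀ ≤ S.X → 0 ≤ e₀ → e₀ ≤ ζ / 20 → e₀ ≤ 1 / 32 → 0 < e₁ → e₁ ≤ 1 / 32 →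
    0 ≤ ν → ν ≤ 1 → |T| ≤ e₁ / S.rho ^ 2 → t ∈ S.I → t - S.l p ∈ S.I → p ∈ S.Q → Sep S θ F →
    1 ≤ b → b ≤ b₀ → p * a ≡ a' [MOD b] → Bij (RE S e₀ θ φ p t) (F t) (F (t - S.l p)) →
    Fr S e₁ ν θ F T b₀ t → ‖FA S θ φ F T b a' (t - S.l p) + FA S θ φ F T b a t‖ ≤ ζ

/-- FAS. The sums of the phases under small shifts. -/
def T_FAS : Prop := ∀ (K b₀ : ℕ) (ζ : ℝ), 1 ≤ K → 0 < ζ → ∃ X₀ : ℝ,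
  ∀ (S : Par) (e₀ e₁ ν T : ℝ) (θ φ : ℤ → ℕ → ℝ) (F : ℤ → Finset ℕ) (w b a : ℕ) (t : ℤ),
    Okx S → S.K = K → X₀ ≤ S.X → 0 ≤ e₀ → e₀ ≤ ζ / 40 → e₀ ≤ 1 / 32 → 0 < e₁ → e₁ ≤ ζ / 40 →
    e₁ ≤ 1 / 32 → 0 ≤ ν → ν ≤ 1 → |T| ≤ e₁ / S.rho ^ 2 → t ∈ S.I → t + (w : ℤ) ∈ S.I →
    w ≤ S.V → Sep S θ F → 1 ≤ b → b ≤ b₀ → Bij (RS S e₀ θ φ w t) (F t) (F (t + w)) →
    Fr S e₁ ν θ F T b₀ t → ‖FA S θ φ F T b a (t + w) - FA S θ φ F T b a t‖ ≤ ζ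

/-- HCE. The twisted sums. -/
def T_HCE : Prop := ∀ (S : Par) (T ζ : ℝ) (θ φ : ℤ → ℕ → ℝ) (F : ℤ → Finset ℕ) (p b : ℕ)
  (t t' : ℤ) (χ : DirichletCharacter ℂ b), 1 ≤ b → Nat.Coprime p b →
    (∀ a a' : ℕ, a < b → a' < b → p * a ≡ a' [MOD b] →
      ‖FA S θ φ F T b a' t' + FA S θ φ F T b a t‖ ≤ ζ) →
    ‖HC S θ φ F T b χ t' + χ (p : ZMod b) * HC S θ φ F T b χ t‖ ≤ b * ζ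

/-- PAR. The identity of Parseval for characters. -/
def T_PAR : Prop := ∀ (b : ℕ) (z : ℕ → ℂ), 1 ≤ b →
  ∑ χ : DirichletCharacter ℂ b, ‖∑ a ∈ range b, χ (a : ZMod b) * z a‖ ^ 2 =
    (Nat.totient b : ℝ) * ∑ a ∈ (range b).filter (fun a => Nat.Coprime a b), ‖z a‖ ^ 2

/-- MAS. At a good point one of the twisted sums is not small. -/
def T_MAS : Prop := ∀ (S : Par) (e₁ ν T : ℝ) (θ φ : ℤ → ℕ → ℝ) (F : ℤ → Finset ℕ) (b₀ : ℕ)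
  (t : ℤ), Okx S → 0 < e₁ → e₁ ≤ 1 / 8 → 0 ≤ ν → ν ≤ 1 → t ∈ S.I → Sep S θ F → F t ≠ ∅ →
    Fr S e₁ ν θ F T b₀ t →
    1 ≤ ∑ b ∈ Icc 1 b₀, ∑ χ : DirichletCharacter ℂ b, ‖HC S θ φ F T b χ t‖ ^ 2

end Pool.Agent.H78.GX.H78.GS
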