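import Pool.Agent.H78.GX.H78.GS.TA5

/-!
# Theorem (G), section 3a: there is no bundle (assembly)
-/

set_option autoImplicit false

open Finset Pool.Agent.H6.N4D Pool.Agent.H78.GX.H6.N4D Pool.Agent.H78.GX

namespace Pool.Agent.H78.GX.H78.GS

lemma cut_cut (S : Par) (m m' : ℤ) : cut (cut S m) m' = cut S (m + m') := by
  simp only [cut, Par.mk.injEq, true_and]
  constructor <;> ring

/-- the sequence of the errors -/
noncomputable def seqE (f : ℝ → ℝ) (a : ℝ) : ℕ → ℝ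
  | 0 => a
  | k + 1 => f (seqE f a k)

theorem pf_BUN (hRNK : T_RNK) (hUNI : T_UNI) (hMNS : T_MNS) (hDSP : T_DSP) (hPRE : T_PRE)
    (hNUM : T_NUM) (hCTP : T_CTP) (hSIZ : T_SIZ) : T_BUN := by
  intro B c X₁ hGap r₀ c₀ hc₀
  obtain ⟨X_S, hS⟩ := hSIZ
  by_cases hr : r₀ = 0
  · refine ⟨1, 1, 1, X_S, le_refl _, one_pos, one_pos, ?_⟩
    intro S F θ φ hOk _ hX _ hB
    obtain ⟨_, _, _, _, _, _, _, _, _, _, _, hN, hI⟩ := hS S hOk hX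
    have h1 : ∀ t, F t = ∅ := by
      intro t
      have := hB.sub t
      rw [hr] at this
      simpa using this
    have h2 := hB.ne
    obtain ⟨t, _, ht⟩ := Par.exists_not (S := S) (E := fun t => F t = ∅) hN.le
      (lt_of_le_of_lt h2 (by nlinarith))
    exact ht (h1 t)
  have hr1 : 1 ≤ r₀ := Nat.one_le_iff_ne_zero.2 hr
  obtain ⟨C₁, hC₁, hRNK⟩ := hRNK B c X₁ hGap r₀
  obtain ⟨C₂, hC₂, hDSP⟩ := hDSP B c X₁ hGap r₀
  obtain ⟨b₀, C₃, hb₀, hC₃, hPRE⟩ := hPRE r₀ hr1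
  obtain ⟨κ₃, e₁', K₀, hκ₃, he₁', hNUM⟩ := hNUM b₀ r₀ hb₀ hr1
  set C : ℝ := max C₁ C₂ with hC
  have hCC₁ : C₁ ≤ C := le_max_left _ _
  have hCC₂ : C₂ ≤ C := le_max_right _ _
  have hC0 : 1 ≤ C := hC₁.trans hCC₁
  obtain ⟨K, hK⟩ := exists_nat_ge ((B : ℝ) + 200 + K₀ + 52 * r₀ + 5000 * C + 10 * C * C₃ / κ₃ +
    2 * C / c₀)
  have hB0 : (0 : ℝ) ≤ B := Nat.cast_nonneg _
  have hK00 : (0 : ℝ) ≤ K₀ := Nat.cast_nonneg _
  have hr00 : (0 : ℝ) ≤ r₀ := Nat.cast_nonneg _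
  have q1 : 0 ≤ 10 * C * C₃ / κ₃ := by positivity
  have q2 : 0 ≤ 2 * C / c₀ := by positivity
  have hKB : B ≤ K := by
    have : (B : ℝ) ≤ K := by linarith
    exact_mod_cast this
  have hKr : 52 * (r₀ : ℝ) ≤ K := by linarith
  have hK200 : 200 ≤ K := by
    have : (200 : ℝ) ≤ K := by linarith
    exact_mod_cast this
  have hKK : K₀ ≤ K := by
    have : (K₀ : ℝ) ≤ K := by linarith
    exact_mod_cast this
  have hKC : 5000 * C ≤ K := by linarith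
  have hK0 : (200 : ℝ) ≤ K := by exact_mod_cast hK200
  have hKp : (0 : ℝ) < K := by linarith
  have hq : C / (K : ℝ) ^ 2 ≤ C / K / 200 := by
    rw [div_div, div_le_div_iff₀ (by positivity) (by positivity)]
    nlinarith [mul_nonneg (by linarith : (0 : ℝ) ≤ C) hKp.le, hK0,
      mul_nonneg (mul_nonneg (by linarith : (0 : ℝ) ≤ C) hKp.le) (by linarith : 0 ≤ (K : ℝ) - 200)]
  have hCK : C / K ≤ 1 / 5000 := by
    rw [div_le_div_iff₀ hKp (by norm_num)]; linarith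
  have hκ0 : 0 ≤ C / (K : ℝ) ^ 2 := by positivity
  have hk1 : 5 * (C / (K : ℝ) ^ 2) ≤ 1 / 1000 := by linarith
  have hCK3 : C₃ * (C / K) ≤ κ₃ / 10 := by
    have h1 : 10 * C * C₃ / κ₃ ≤ K := by linarith
    rw [div_le_iff₀ hκ₃] at h1
    rw [mul_div_assoc', div_le_iff₀ hKp]
    linarith
  have hCKc : C / K ≤ c₀ / 2 := by
    have h1 : 2 * C / c₀ ≤ K := by linarith
    rw [div_le_iff₀ hc₀] at h1
    rw [div_le_iff₀ hKp]
    linarith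
  have hCK0 : 0 ≤ C / K := by positivity
  have h1K : 1 / (K : ℝ) ≤ C / K := div_le_div_of_nonneg_right hC0 hKp.le
  have hκC : C / K ≤ κ₃ / 10 := by
    refine le_trans ?_ hCK3
    nlinarith
  have hk3 : C₃ * (2 * (C / (K : ℝ) ^ 2) + 5 * (C / (K : ℝ) ^ 2) + 1 / K) ≤ κ₃ := by
    have : C₃ * (2 * (C / (K : ℝ) ^ 2) + 5 * (C / (K : ℝ) ^ 2) + 1 / K) ≤ C₃ * (2 * (C / K)) := by
      apply mul_le_mul_of_nonneg_left _ (by linarith)
      linarith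
    linarith
  set e₁ : ℝ := min (1 / 16) e₁' with he₁
  have he₁0 : 0 < e₁ := lt_min (by norm_num) he₁'
  have he₁a : e₁ ≤ 1 / 16 := min_le_left _ _
  have he₁b : e₁ ≤ e₁' := min_le_right _ _
  have hK3 : (0 : ℝ) < 1 / (K : ℝ) ^ 3 := by positivity
  have hK3K : 1 / (K : ℝ) ^ 3 ≤ 1 / K := by
    apply one_div_le_one_div_of_le hKp
    nlinarith [pow_pos hKp 2, mul_pos hKp hKp, mul_self_nonneg ((K : ℝ) - 1)]
  have hD : ∀ e' : ℝ, ∃ e X₀ : ℝ, 0 < e' → e' ≤ 1 / (K : ℝ) ^ 3 → 0 < e ∧ e ≤ e' / 2 ∧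
      ∀ (S : Par) (m Δ : ℤ) (s : ℕ) (ε e₀ c₀ : ℝ)
      (F₀ F : ℤ → Finset ℕ) (θ φ : ℤ → ℕ → ℝ), Okx S → S.K = K → X₀ ≤ S.X → 0 ≤ ε → ε ≤ e →
      e₀ ≤ e * e₁ / 100 → Bnd S ε e₀ c₀ r₀ F₀ θ φ → 0 ≤ m → (∀ t, F t ⊆ F₀ t) →
      Ctx (cut S m) Δ r₀ s e e₀ (2 * (C / (K : ℝ) ^ 2)) F θ φ →
      Mnl (cut S (m + Δ)) (RE S e₀ θ φ) (RS S e₀ θ φ) e' (C / (K : ℝ) ^ 2) F s →
      ∃ (T : ℝ) (N : ℕ), |T| ≤ e₁ / S.rho ^ 2 ∧ 5 * S.L ≤ N * S.h ∧ (N : ℤ) ≤ Δ ∧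
        HT (cut S (m + Δ)) e₁ (5 * (C / (K : ℝ) ^ 2)) (1 / 100) θ F T N := by
    intro e'
    by_cases h : 0 < e' ∧ e' ≤ 1 / (K : ℝ) ^ 3
    · obtain ⟨e, X₀, h1, h2, h3⟩ := hDSP C K e₁ (1 / 100) e' hCC₂ hKB hK200 hk1 he₁0 he₁a
        (by norm_num) le_rfl h.1 h.2
      exact ⟨e, X₀, fun _ _ => ⟨h1, h2, h3⟩⟩
    · exact ⟨0, 0, fun h1 h2 => absurd ⟨h1, h2⟩ h⟩
  choose fe fX hD using hD
  set es : ℕ → ℝ := seqE fe (1 / (K : ℝ) ^ 3) with hes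
  have es0 : es 0 = 1 / (K : ℝ) ^ 3 := rfl
  have esS : ∀ k, es (k + 1) = fe (es k) := fun k => rfl
  have hesA : ∀ k, 0 < es k ∧ es k ≤ 1 / (K : ℝ) ^ 3 := by
    intro k
    induction k with
    | zero => exact ⟨by rw [es0]; exact hK3, le_of_eq es0⟩
    | succ k ih =>
      obtain ⟨h1, h2, _⟩ := hD (es k) ih.1 ih.2
      rw [esS]
      exact ⟨h1, by linarith [ih.2, ih.1]⟩
  have hesB : ∀ k, 0 < es k ∧ es (k + 1) ≤ es k / 2 := by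
    intro k
    refine ⟨(hesA k).1, ?_⟩
    rw [esS]
    exact (hD (es k) (hesA k).1 (hesA k).2).2.1
  have hesM : ∀ k l, k ≤ l → es l ≤ es k := by
    intro k l hkl
    induction l, hkl using Nat.le_induction with
    | base => exact le_rfl
    | succ l _ ih => linarith [(hesB l).2, (hesB l).1]
  obtain ⟨X_R, hRNK⟩ := hRNK K hKB
  obtain ⟨X_U, hUNI⟩ := hUNI K r₀ (es r₀ / 2) (by linarith) (by linarith [(hesA r₀).1])
  obtain ⟨X_P, hPRE⟩ := hPRE K e₁ (1 / 100) hK200 he₁0 he₁a (by norm_num) le_rfl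
  obtain ⟨X_N, hNUM⟩ := hNUM K e₁ (2 * (1 / 100)) hKK he₁0 he₁b (by norm_num) (by norm_num)
  obtain ⟨X_D, hX_D⟩ : ∃ X : ℝ, ∀ k < r₀, fX (es k) ≤ X := by
    refine ⟨∑ k ∈ range r₀, |fX (es k)|, fun k hk => ?_⟩
    exact (le_abs_self _).trans (single_le_sum (f := fun k => |fX (es k)|)
      (fun _ _ => abs_nonneg _) (mem_range.2 hk))
  set e₀ : ℝ := min (es r₀ * e₁ / 100) (min (1 / 8) e₁') with he₀
  have hesr := (hesA r₀).1
  have he₀0 : 0 < e₀ := lt_min (by positivity) (lt_min (by norm_num) he₁')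
  have he₀a : e₀ ≤ es r₀ * e₁ / 100 := min_le_left _ _
  have he₀b : e₀ ≤ 1 / 8 := (min_le_right _ _).trans (min_le_left _ _)
  have he₀c : e₀ ≤ e₁' := (min_le_right _ _).trans (min_le_right _ _)
  refine ⟨K, es r₀ / 4, e₀, max X_S (max X_R (max X_U (max X_P (max X_N X_D)))), by omega,
    by linarith, he₀0, ?_⟩
  intro S F₀ θ φ hOk hSK hX hlen hB
  simp only [max_le_iff] at hX
  obtain ⟨hX1, hX2, hX3, hX4, hX5, hX6⟩ := hX
  obtain ⟨hL1, _, _, hrho, hh4, _, _, _, _, _, _, hN, hI⟩ := hS S hOk hX1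
  have hh := hOk.hh
  have hrp := hOk.hr0
  have hh1 : S.h ≤ 1 := by
    refine hh4.trans ?_
    have : S.rho ^ 4 ≤ 1 := pow_le_one₀ hrp.le (by linarith)
    exact this
  have hInv : Inv S (RE S e₀ θ φ) (RS S e₀ θ φ) (es r₀ / 2) F₀ := by
    apply hUNI S e₀ c₀ F₀ θ φ hOk hSK hX3 he₀0.le he₀b
    have : es r₀ / 2 / 2 = es r₀ / 4 := by ring
    rw [this]; exact hB
  obtain ⟨s₀, hs₀r, hRk⟩ := hRNK S hOk hSK hX2 (RE S e₀ θ φ) (RS S e₀ θ φ) (es r₀ / 2) F₀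
    (by linarith) (by linarith [(hesA r₀).2]) hB.sub hInv
  have hRk' : Rk S (C / (K : ℝ) ^ 2) F₀ s₀ := by
    unfold Rk at hRk ⊢
    refine hRk.trans (mul_le_mul_of_nonneg_right ?_ hN.le)
    exact div_le_div_of_nonneg_right hCC₁ (by positivity)
  have hs₀ : 1 ≤ s₀ := by
    by_contra hcon
    have hs0 : s₀ = 0 := by omega
    rw [hs0] at hRk'
    unfold Rk at hRk'
    have h1 : S.cnt (fun t => F₀ t = ∅ ∨ (F₀ t).card ≠ 0) ≤
        (1 - c₀) * S.N + C / (K : ℝ) ^ 2 * S.N := (Par.cnt_or _ _).trans (add_le_add hB.ne hRk')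
    have h2 : (1 - c₀) * S.N + C / (K : ℝ) ^ 2 * S.N < S.N := by
      have : C / (K : ℝ) ^ 2 < c₀ := by linarith
      nlinarith
    obtain ⟨t, _, ht⟩ := Par.exists_not hN.le (lt_of_le_of_lt h1 h2)
    apply ht
    by_cases h0 : F₀ t = ∅
    · exact Or.inl h0
    · exact Or.inr (fun h => h0 (card_eq_zero.1 h))
  obtain ⟨Δ, hΔ1, hΔ2⟩ : ∃ Δ : ℤ, 12 * S.L ≤ Δ * S.h ∧ Δ * S.h ≤ 13 * S.L := by
    refine ⟨⌈12 * S.L / S.h⌉, ?_, ?_⟩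
    · have := Int.le_ceil (12 * S.L / S.h)
      rwa [div_le_iff₀ hh] at this
    · have h1 := (Int.ceil_lt_add_one (12 * S.L / S.h)).le
      have h2 : (⌈12 * S.L / S.h⌉ : ℝ) * S.h ≤ (12 * S.L / S.h + 1) * S.h :=
        mul_le_mul_of_nonneg_right h1 hh.le
      have h3 : (12 * S.L / S.h + 1) * S.h = 12 * S.L + S.h := by
        field_simp
      linarith
  have hΔ0 : 0 ≤ Δ := by
    have : (0 : ℝ) ≤ Δ := by
      by_contra hcon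
      push Not at hcon
      nlinarith
    exact_mod_cast this
  have hlen' : 12 * (S.K * S.L) ≤ S.N * S.h - 2 * (r₀ * Δ * S.h) := by
    rw [hSK] at hlen ⊢
    have h1 : (r₀ : ℝ) * (Δ * S.h) ≤ r₀ * (13 * S.L) := mul_le_mul_of_nonneg_left hΔ2 hr00
    have h2 : (52 * (r₀ : ℝ)) * S.L ≤ K * S.L := mul_le_mul_of_nonneg_right hKr (by linarith)
    nlinarith
  obtain ⟨m, s, F, hm0, hmΔ, hs1, hsr, hsub, hInvF, hRkF, hMnl⟩ := hMNS r₀ es S Δ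
    (C / (K : ℝ) ^ 2) (RE S e₀ θ φ) (RS S e₀ θ φ) F₀ s₀ hesB hOk hΔ0 hκ0 hlen' hs₀ hs₀r hInv hRk'
  have hmR : (m : ℝ) + Δ ≤ r₀ * Δ := by exact_mod_cast hmΔ
  have hΔR : (0 : ℝ) ≤ Δ := by exact_mod_cast hΔ0
  have hlen2 : 12 * (S.K * S.L) ≤ S.N * S.h - 2 * ((m + Δ : ℤ) * S.h) := by
    push_cast
    have : ((m : ℝ) + Δ) * S.h ≤ r₀ * Δ * S.h := mul_le_mul_of_nonneg_right hmR hh.le
    linarith
  have hlen1 : 12 * (S.K * S.L) ≤ S.N * S.h - 2 * (m * S.h) := by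
    push_cast at hlen2
    have : 0 ≤ (Δ : ℝ) * S.h := mul_nonneg hΔR hh.le
    nlinarith
  obtain ⟨hOk1, _, _, _, _, hI1, _, _, _⟩ := hCTP S m hOk hm0 hlen1
  obtain ⟨hOk2, _, _, _, _, _, _, _, _⟩ := hCTP S (m + Δ) hOk (by omega) hlen2
  have hss : es s ≤ 1 / (K : ℝ) ^ 3 := (hesA s).2
  have hctx : Ctx (cut S m) Δ r₀ s (es s) e₀ (2 * (C / (K : ℝ) ^ 2)) F θ φ :=
    { ok := hOk1
      ok2 := by rw [cut_cut]; exact hOk2
      d1 := hΔ1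
      d2 := hΔ2
      sub := fun t => (hsub t).trans (hB.sub t)
      s1 := hs1
      s2 := hsr
      e0 := he₀0.le
      sep := fun t ht i hi j hj hij => hB.sep t (hI1 ht) i (hsub t hi) j (hsub t hj) hij
      inv := hInvF
      rk := hRkF }
  have hs' : s - 1 + 1 = s := by omega
  have hfe : fe (es (s - 1)) = es s := by rw [← esS, hs']
  obtain ⟨_, _, hD'⟩ := hD (es (s - 1)) (hesA _).1 (hesA _).2
  rw [hfe] at hD'
  have hesrs : es r₀ ≤ es s := hesM s r₀ hsr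
  have hess : 0 < es s := (hesA s).1
  obtain ⟨T, N, hT, hN5, hNΔ, hHT⟩ := hD' S m Δ s (es r₀ / 4) e₀ c₀ F₀ F θ φ hOk hSK
    ((hX_D (s - 1) (by omega)).trans hX6) (by linarith) (by linarith)
    (he₀a.trans (by
      have : es r₀ * e₁ ≤ es s * e₁ := mul_le_mul_of_nonneg_right hesrs he₁0.le
      linarith)) hB hm0 hsub hctx hMnl
  rw [← cut_cut] at hHT
  have hP := hPRE (cut S m) Δ s N (es s) e₀ (2 * (C / (K : ℝ) ^ 2)) (5 * (C / (K : ℝ) ^ 2)) T F θ φ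
    hSK hX4 hctx (hss.trans hK3K) (by linarith) hT hN5 hNΔ hHT
  refine hNUM (cut S m) Δ s (es s) e₀ (2 * (C / (K : ℝ) ^ 2)) T F θ φ hSK hX5 hctx
    (by linarith) he₀c (by linarith) hT (hP.trans ?_)
  have hN2 : 0 ≤ (cut (cut S m) Δ).N := by
    rw [cut_cut]
    exact (hCTP S (m + Δ) hOk (by omega) hlen2).2.2.1
  exact mul_le_mul_of_nonneg_right hk3 hN2

end Pool.Agent.H78.GX.H78.GS
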