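import Pool.Agent.H78.GX.H78.GS.Defs

/-!
# Theorem (G), section 3a: targets (bundles, displacements, induction on the scale)
-/

set_option autoImplicit false

open Finset Pool.Agent.H6.N4D Pool.Agent.H78.GX.H6.N4D Pool.Agent.H78.GX

namespace Pool.Agent.H78.GX.H78.GS

/-! ## A. bundles -/

/-- CTP. Inner stretches. -/
def T_CTP : Prop := ∀ (S : Par) (m : ℤ), Okx S → 0 ≤ m →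
  12 * (S.K * S.L) ≤ S.N * S.h - 2 * (m * S.h) →
  (Okx (cut S m)) ∧ (cut S m).N = S.N - 2 * m ∧ 0 ≤ (cut S m).N ∧ (cut S m).N ≤ S.N ∧
  S.N ≤ 13 / 12 * (cut S m).N ∧ (cut S m).I ⊆ S.I ∧
  (∀ t ∈ (cut S m).I, ∀ v : ℤ, |v| ≤ m → t + v ∈ S.I) ∧
  (∀ E : ℤ → Prop, (cut S m).cnt E ≤ S.cnt E) ∧
  ∀ (E : ℤ → Prop) (v : ℤ), |v| ≤ m → (cut S m).cnt (fun t => E (t + v)) ≤ S.cnt E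

/-- RST. Restriction to inner stretches. -/
def T_RST : Prop := ∀ (S : Par) (m : ℤ) (RP RW : ℕ → ℤ → ℕ → ℕ → Prop) (e κ : ℝ)
  (F : ℤ → Finset ℕ) (s : ℕ), Okx S → 0 ≤ m →
  12 * (S.K * S.L) ≤ S.N * S.h - 2 * (m * S.h) → 0 ≤ e → 0 ≤ κ →
  (Inv S RP RW e F → Inv (cut S m) RP RW (2 * e) F) ∧ (Rk S κ F s → Rk (cut S m) (3 / 2 * κ) F s)

/-- RNK. An invariant bundle has a constant number of sheets. -/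
def T_RNK : Prop := ∀ (B : ℕ) (c X₁ : ℝ), Gap B c X₁ → ∀ r₀ : ℕ, ∃ C : ℝ, 1 ≤ C ∧
  ∀ K : ℕ, B ≤ K → ∃ X₀ : ℝ, ∀ S : Par, Okx S → S.K = K → X₀ ≤ S.X →
    ∀ (RP RW : ℕ → ℤ → ℕ → ℕ → Prop) (e : ℝ) (F : ℤ → Finset ℕ), 0 < e →
      e ≤ 1 / (K : ℝ) ^ 3 → (∀ t, F t ⊆ range r₀) → Inv S RP RW e F →
      ∃ s : ℕ, s ≤ r₀ ∧ Rk S (C / (K : ℝ) ^ 2) F s

/-- CTX. The choice of a cut point. -/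
def T_CTX : Prop := ∀ (S : Par) (r₀ : ℕ) (F : ℤ → Finset ℕ) (G : ℤ → ℕ → ℝ) (u v e : ℝ),
  0 ≤ S.N → (∀ t, F t ⊆ range r₀) → u < v → 0 < e →
    ∃ y : ℝ, u ≤ y ∧ y ≤ v ∧
      S.cnt (fun t => ∃ j ∈ F t, |G t j - y| ≤ e) ≤ 8 * r₀ * e / (v - u) * S.N

/-- SBI. The part of the bundle below a cut point is invariant. -/
def T_SBI : Prop := ∀ (S : Par) (RP RW : ℕ → ℤ → ℕ → ℕ → Prop) (e₁ e₂ e₃ u : ℝ)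
  (F : ℤ → Finset ℕ) (G : ℤ → ℕ → ℝ), 0 ≤ S.N → 0 ≤ e₁ → 0 ≤ e₂ → 0 ≤ e₃ →
    Inv S RP RW e₁ F → AI S RP RW e₂ F G →
    S.cnt (fun t => ∃ j ∈ F t, |G t j - u| ≤ e₂) ≤ e₃ * S.N →
    Inv S RP RW (e₁ + e₂ + (1 + ∑ p ∈ S.Q, 1 / (p : ℝ)) * e₃) (sbl F G u)

/-- PIB. On a minimal bundle every invariant function is almost constant. -/
def T_PIB : Prop := ∀ (B : ℕ) (c X₁ : ℝ), Gap B c X₁ → ∀ r₀ : ℕ, ∃ C₁ : ℝ, 1 ≤ C₁ ∧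
  ∀ (C : ℝ) (K : ℕ) (M ν e' : ℝ), C₁ ≤ C → B ≤ K → 0 < M → 0 < ν → 0 < e' →
    e' ≤ 1 / (K : ℝ) ^ 3 → ∃ e X₀ : ℝ, 0 < e ∧ e ≤ e' ∧
    ∀ S : Par, Okx S → S.K = K → X₀ ≤ S.X → ∀ (RP RW : ℕ → ℤ → ℕ → ℕ → Prop)
      (F : ℤ → Finset ℕ) (s : ℕ) (G : ℤ → ℕ → ℝ), (∀ t, F t ⊆ range r₀) → Inv S RP RW e F →
      Rk S (3 * (C / (K : ℝ) ^ 2)) F s → Mnl S RP RW e' (C / (K : ℝ) ^ 2) F s →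
      (∀ t j, |G t j| ≤ M) → AI S RP RW e F G →
      ∃ z : ℝ, S.cnt (fun t => ∃ j ∈ F t, ν < |G t j - z|) ≤ 5 * (C / (K : ℝ) ^ 2) * S.N

/-- MNB. A minimal invariant part of a bundle. -/
def T_MNB : Prop := ∀ (r₀ : ℕ) (E : ℝ → ℝ) (e₁ : ℝ), (∀ e, 0 < e → 0 < E e ∧ E e ≤ e / 2) →
  0 < e₁ → ∃ ε : ℝ, 0 < ε ∧ ∀ (S : Par) (Δ : ℤ) (κ : ℝ) (RP RW : ℕ → ℤ → ℕ → ℕ → Prop)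
    (F₀ : ℤ → Finset ℕ) (s₀ : ℕ), Okx S → 0 ≤ Δ → 0 ≤ κ →
    12 * (S.K * S.L) ≤ S.N * S.h - 2 * (r₀ * Δ * S.h) → 1 ≤ s₀ → s₀ ≤ r₀ →
    Inv S RP RW ε F₀ → Rk S κ F₀ s₀ →
    ∃ (m : ℤ) (s : ℕ) (e' : ℝ) (F : ℤ → Finset ℕ), 0 ≤ m ∧ m + Δ ≤ r₀ * Δ ∧ 1 ≤ s ∧ s ≤ r₀ ∧
      ε ≤ e' ∧ e' ≤ e₁ ∧ (∀ t, F t ⊆ F₀ t) ∧ Inv (cut S m) RP RW (E e') F ∧
      Rk (cut S m) (2 * κ) F s ∧ Mnl (cut S (m + Δ)) RP RW e' κ F s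

/-! ## B. from matchings to bijections -/

/-- EXC. For every point at most one prime number gives an exception. -/
def T_EXC : Prop := ∀ (S : Par) (A : Finset (ℕ × ℕ)) (δ : ℤ → ℕ → ℕ → ℝ) (ζ : ℤ → ℝ), Okx S →
  (∀ t ∈ S.I, 0 ≤ ζ t ∧ 2 * S.P ^ (4 * S.K) * ζ t < 1) →
    ∑ p ∈ S.Q, 1 / (p : ℝ) * S.cnt (fun t => ∃ k ∈ A,
      nd (p * δ t k.1 k.2) ≤ p * ζ t ∧ ζ t < nd (δ t k.1 k.2)) ≤ A.card / S.P * S.N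

/-- UNI. Separated matched bundles are invariant. -/
def T_UNI : Prop := ∀ (K r₀ : ℕ) (ε : ℝ), 1 ≤ K → 0 < ε → ∃ X₀ : ℝ,
  ∀ (S : Par) (e₀ c₀ : ℝ) (F : ℤ → Finset ℕ) (θ φ : ℤ → ℕ → ℝ), Okx S → S.K = K → X₀ ≤ S.X →
    0 ≤ e₀ → e₀ ≤ 1 / 8 → Bnd S (ε / 2) e₀ c₀ r₀ F θ φ →
    Inv S (RE S e₀ θ φ) (RS S e₀ θ φ) ε F

/-! ## C. the distance functions are invariant -/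

/-- GDP. Along the edges of the prime numbers. -/
def T_GDP : Prop := ∀ (K r₀ : ℕ) (e₁ e : ℝ), 1 ≤ K → 0 < e₁ → e₁ ≤ 1 → 0 < e → ∃ X₀ : ℝ,
  ∀ (S : Par) (Δ : ℤ) (e₀ c : ℝ) (D : ℕ) (F : ℤ → Finset ℕ) (θ φ : ℤ → ℕ → ℝ), Okx S → S.K = K →
    X₀ ≤ S.X → 0 ≤ Δ → 12 * (S.K * S.L) ≤ S.N * S.h - 2 * (Δ * S.h) → 0 ≤ e₀ →
    e₀ ≤ e * e₁ / 100 → (∀ t, F t ⊆ range r₀) →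
    Inv S (RE S e₀ θ φ) (RS S e₀ θ φ) (e / 8) F → (D : ℤ) ≤ Δ → |c| ≤ 1 / S.rho ^ 2 →
    ∑ p ∈ S.Q, 1 / (p : ℝ) * (cut S Δ).cnt (fun t => t - S.l p ∈ (cut S Δ).I ∧
      ∃ j ∈ F t, ∃ i ∈ F (t - S.l p), RE S e₀ θ φ p t j i ∧
        e < |Gd S e₁ θ F D c (t - S.l p) i - Gd S e₁ θ F D c t j|) ≤ e * (cut S Δ).N

/-- GDS. Under small shifts. -/
def T_GDS : Prop := ∀ (K r₀ : ℕ) (e₁ e : ℝ), 1 ≤ K → 0 < e₁ → e₁ ≤ 1 → 0 < e → ∃ X₀ : ℝ,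
  ∀ (S : Par) (Δ : ℤ) (e₀ c : ℝ) (D : ℕ) (F : ℤ → Finset ℕ) (θ φ : ℤ → ℕ → ℝ), Okx S → S.K = K →
    X₀ ≤ S.X → 0 ≤ Δ → 12 * (S.K * S.L) ≤ S.N * S.h - 2 * (Δ * S.h) → 0 ≤ e₀ →
    e₀ ≤ e * e₁ / 100 → (∀ t, F t ⊆ range r₀) →
    Inv S (RE S e₀ θ φ) (RS S e₀ θ φ) (e / 8) F → (D : ℤ) ≤ Δ → |c| ≤ 1 / S.rho ^ 2 →
    ∀ w : ℕ, 1 ≤ w → w ≤ S.V → (cut S Δ).cnt (fun t => t + (w : ℤ) ∈ (cut S Δ).I ∧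
      ∃ j ∈ F t, ∃ i ∈ F (t + w), RS S e₀ θ φ w t j i ∧
        e < |Gd S e₁ θ F D c (t + w) i - Gd S e₁ θ F D c t j|) ≤ e * (cut S Δ).N

/-- GDA. The distance functions are invariant. -/
def T_GDA : Prop := ∀ (K r₀ : ℕ) (e₁ e : ℝ), 1 ≤ K → 0 < e₁ → e₁ ≤ 1 → 0 < e → ∃ X₀ : ℝ,
  ∀ (S : Par) (Δ : ℤ) (e₀ c : ℝ) (D : ℕ) (F : ℤ → Finset ℕ) (θ φ : ℤ → ℕ → ℝ), Okx S → S.K = K →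
    X₀ ≤ S.X → 0 ≤ Δ → 12 * (S.K * S.L) ≤ S.N * S.h - 2 * (Δ * S.h) → 0 ≤ e₀ →
    e₀ ≤ e * e₁ / 100 → (∀ t, F t ⊆ range r₀) →
    Inv S (RE S e₀ θ φ) (RS S e₀ θ φ) (e / 8) F → (D : ℤ) ≤ Δ → |c| ≤ 1 / S.rho ^ 2 →
    (∀ t j, 0 ≤ Gd S e₁ θ F D c t j ∧ Gd S e₁ θ F D c t j ≤ 1) ∧
    AI (cut S Δ) (RE S e₀ θ φ) (RS S e₀ θ φ) e F (Gd S e₁ θ F D c)

/-! ## D. the algebra of the displacements -/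

/-- DIC. Almost all sheets have a displaced sheet, or almost none has. -/
def T_DIC : Prop := ∀ (S : Par) (e₁ κ ν z c : ℝ) (θ : ℤ → ℕ → ℝ) (F : ℤ → Finset ℕ) (D : ℕ),
  0 < ν → ν < 1 →
  S.cnt (fun t => ∃ j ∈ F t, ν / 4 < |Gd S e₁ θ F D c t j - z|) ≤ κ * S.N →
    Hit S e₁ κ ν θ F D c ∨ Mis S e₁ κ (ν / 2) θ F D c

/-- CMP. Composition. -/
def T_CMP : Prop := ∀ (S : Par) (e₁ κ κ' ν ν' c c' : ℝ) (θ : ℤ → ℕ → ℝ) (F : ℤ → Finset ℕ)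
  (D D' : ℕ), Okx S → 0 < S.N → 0 < e₁ → 0 ≤ ν → 0 ≤ ν' → Hit S e₁ κ ν θ F D c →
    Hit S e₁ κ' ν' θ F D' c' →
    Hit S e₁ (κ + κ' + D / S.N) (ν + ν') θ F (D + D') (c + Real.exp (-(S.h * D)) * c')

/-- GRD. Improvement of the precision by a finite grid of displacements. -/
def T_GRD : Prop := ∀ (S : Par) (e₁ κ κ' κ₁ ν ν' c₀ : ℝ) (θ : ℤ → ℕ → ℝ) (F : ℤ → Finset ℕ)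
  (D : ℕ), Okx S → 0 < S.N → 0 < e₁ → 0 < ν → 0 ≤ ν' → 0 ≤ κ →
    S.cnt (fun t => F t = ∅) ≤ κ₁ * S.N → Hit S e₁ κ' ν' θ F D c₀ →
    (∀ c : ℝ, |c - c₀| ≤ ν' * e₁ / S.rho →
      Hit S e₁ κ ν θ F D c ∨ Mis S e₁ κ (ν / 2) θ F D c) →
    κ₁ + κ' + (4 * ν' / ν + 3) * κ < 1 →
    ∃ c : ℝ, |c - c₀| ≤ ν' * e₁ / S.rho ∧ Hit S e₁ κ ν θ F D c

/-- the sheets over one point are separated -/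
def Sep (S : Par) (θ : ℤ → ℕ → ℝ) (F : ℤ → Finset ℕ) : Prop :=
  ∀ t ∈ S.I, ∀ i ∈ F t, ∀ j ∈ F t, i ≠ j → 1 / (S.rho * S.x t) ≤ nd (θ t i - θ t j)

/-- UNQ. The displacement is unique. -/
def T_UNQ : Prop := ∀ (S : Par) (e₁ κ κ' κ₁ κ₂ ν ν' c c' : ℝ) (θ : ℤ → ℕ → ℝ)
  (F : ℤ → Finset ℕ) (D s : ℕ), Okx S → 0 < S.N → 0 < e₁ → e₁ ≤ 1 / 8 → 0 ≤ ν → ν ≤ 1 → 0 ≤ ν' →
    ν' ≤ 1 → 1 ≤ s → Sep S θ F → Rk S κ₁ F s → S.cnt (fun t => (F (t + D)).card ≠ s) ≤ κ₂ * S.N →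
    Hit S e₁ κ ν θ F D c → Hit S e₁ κ' ν' θ F D c' → κ + κ' + κ₁ + κ₂ < 1 →
    |c - c'| ≤ 1 / (4 * S.rho) → |c - c'| ≤ (ν + ν') * e₁ / S.rho

/-- QCO. Almost cocycles are almost coboundaries. -/
def T_QCO : Prop := ∀ (h η : ℝ) (N : ℕ) (Z : ℕ → ℝ), 0 < h → 1 ≤ N → 0 ≤ η →
  (∀ D D' : ℕ, D + D' ≤ N → |Z (D + D') - Z D - Real.exp (-(h * D)) * Z D'| ≤ η) →
    ∃ τ : ℝ, |τ| * (1 - Real.exp (-(h * N))) ≤ |Z N| ∧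
      ∀ D : ℕ, D ≤ N → |Z D - τ * (1 - Real.exp (-(h * D)))| ≤ 5 * η

/-- STP. Doubling of the scale. -/
def T_STP : Prop := ∀ (S : Par) (e₁ κ ν T : ℝ) (s N : ℕ) (θ : ℤ → ℕ → ℝ) (F : ℤ → Finset ℕ),
  Okx S → 0 < S.N → 0 < e₁ → e₁ ≤ 1 / 16 → 0 < ν → ν ≤ 1 / 4 → 0 ≤ κ → κ ≤ 1 / 1000 → 1 ≤ s →
    1 ≤ N → 2 * (N : ℝ) ≤ S.N / 100 → Sep S θ F → Rk S κ F s →
    (∀ D : ℕ, D ≤ 2 * N → S.cnt (fun t => (F (t + D)).card ≠ s) ≤ κ * S.N) →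
    (∀ (D : ℕ) (c : ℝ), D ≤ 2 * N → |c| ≤ 1 / S.rho ^ 2 →
      Hit S e₁ κ (ν / 16) θ F D c ∨ Mis S e₁ κ (ν / 32) θ F D c) →
    |T| ≤ 1 / (2 * S.rho ^ 2) → HT S e₁ κ ν θ F T N →
    ∃ T' : ℝ, |T' - T| * (1 - Real.exp (-(S.h * (2 * N)))) ≤ 2 * ν * e₁ / S.rho ∧
      HT S e₁ κ ν θ F T' (2 * N)

/-- STA. The start of the induction. -/
def T_STA : Prop := ∀ (S : Par) (m : ℤ) (e₁ κ ν e e₀ ε : ℝ) (θ φ : ℤ → ℕ → ℝ)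
  (F₀ F : ℤ → Finset ℕ), Okx S → (Okx (cut S m)) → 0 < (cut S m).N → 0 < e₁ → e₁ ≤ 1 / 8 → 0 < ν →
    ν ≤ 1 → 0 ≤ e₀ → e₀ ≤ ν * e₁ / 2 → 0 ≤ κ → κ ≤ 1 / 10 → 0 ≤ e → e ≤ 1 / 10 → 0 ≤ ε →
    ε ≤ 1 / 10 → 0 ≤ m → S.rho / 4 ≤ m * S.h → Sep S θ F₀ →
    (∀ w : ℕ, (w : ℝ) * S.h ≤ S.rho / 4 → S.cnt (fun t => t + (w : ℤ) ∈ S.I ∧
      ¬ Mat (RS S e₀ θ φ w t) (F₀ t) (F₀ (t + w))) ≤ ε * S.N) →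
    (∀ t, F t ⊆ F₀ t) → (cut S m).cnt (fun t => F t = ∅) ≤ κ * (cut S m).N →
    (∀ D : ℕ, (D : ℝ) * S.h ≤ S.rho / 4 → (cut S m).cnt (fun t =>
      ¬ ∀ j ∈ F (t + D), ∃ i ∈ F (t + D + 1), RS S e₀ θ φ 1 (t + D) j i) ≤ e * (cut S m).N) →
    (∀ D : ℕ, (D : ℝ) * S.h ≤ S.rho / 4 →
      Hit (cut S m) e₁ κ ν θ F D 0 ∨ Mis (cut S m) e₁ κ (ν / 2) θ F D 0) →
    HT (cut S m) e₁ κ ν θ F 0 ⌊S.rho / (4 * S.h)⌋₊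

/-- IND. The induction on the scale. -/
def T_IND : Prop := ∀ K : ℕ, 1 ≤ K → ∃ X₀ : ℝ, ∀ (S : Par) (e₁ κ ν : ℝ) (s M : ℕ)
  (θ : ℤ → ℕ → ℝ) (F : ℤ → Finset ℕ), Okx S → S.K = K → X₀ ≤ S.X → 0 < e₁ → e₁ ≤ 1 / 16 →
    0 < ν → ν ≤ 1 / 100 → 0 ≤ κ → κ ≤ 1 / 1000 → 1 ≤ s → Sep S θ F → Rk S κ F s →
    10 * S.L ≤ M * S.h → (M : ℝ) ≤ S.N / 100 →
    (∀ D : ℕ, D ≤ M → S.cnt (fun t => (F (t + D)).card ≠ s) ≤ κ * S.N) →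
    (∀ (D : ℕ) (c : ℝ), D ≤ M → |c| ≤ 1 / S.rho ^ 2 →
      Hit S e₁ κ (ν / 16) θ F D c ∨ Mis S e₁ κ (ν / 32) θ F D c) →
    HT S e₁ κ ν θ F 0 ⌊S.rho / (4 * S.h)⌋₊ →
    ∃ (T : ℝ) (N : ℕ), |T| ≤ e₁ / S.rho ^ 2 ∧ 5 * S.L ≤ N * S.h ∧ N ≤ M ∧
      HT S e₁ κ ν θ F T N

/-! ## the situation after the choice of the minimal bundle -/

/-- the stretch `S`, the inner stretch `cut S Δ`, the bundle `F` with `s` sheets -/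
structure Ctx (S : Par) (Δ : ℤ) (r₀ s : ℕ) (e e₀ κ : ℝ) (F : ℤ → Finset ℕ) (θ φ : ℤ → ℕ → ℝ) :
    Prop where
  ok : Okx S
  ok2 : (Okx (cut S Δ))
  d1 : 12 * S.L ≤ Δ * S.h
  d2 : Δ * S.h ≤ 13 * S.L
  sub : ∀ t, F t ⊆ range r₀
  s1 : 1 ≤ s
  s2 : s ≤ r₀
  e0 : 0 ≤ e₀
  sep : Sep S θ F
  inv : Inv S (RE S e₀ θ φ) (RS S e₀ θ φ) e F
  rk : Rk S κ F s

/-- DSP. The displacements are those of `T / x` up to the scale `5 L`. -/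
def T_DSP : Prop := ∀ (B : ℕ) (c X₁ : ℝ), Gap B c X₁ → ∀ r₀ : ℕ, ∃ C₁ : ℝ, 1 ≤ C₁ ∧
  ∀ (C : ℝ) (K : ℕ) (e₁ ν e' : ℝ), C₁ ≤ C → B ≤ K → 200 ≤ K → 5 * (C / (K : ℝ) ^ 2) ≤ 1 / 1000 →
    0 < e₁ → e₁ ≤ 1 / 16 → 0 < ν → ν ≤ 1 / 100 → 0 < e' → e' ≤ 1 / (K : ℝ) ^ 3 →
    ∃ e X₀ : ℝ, 0 < e ∧ e ≤ e' / 2 ∧ ∀ (S : Par) (m Δ : ℤ) (s : ℕ) (ε e₀ c₀ : ℝ)
      (F₀ F : ℤ → Finset ℕ) (θ φ : ℤ → ℕ → ℝ), Okx S → S.K = K → X₀ ≤ S.X → 0 ≤ ε → ε ≤ e →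
      e₀ ≤ e * e₁ / 100 → Bnd S ε e₀ c₀ r₀ F₀ θ φ → 0 ≤ m → (∀ t, F t ⊆ F₀ t) →
      Ctx (cut S m) Δ r₀ s e e₀ (2 * (C / (K : ℝ) ^ 2)) F θ φ →
      Mnl (cut S (m + Δ)) (RE S e₀ θ φ) (RS S e₀ θ φ) e' (C / (K : ℝ) ^ 2) F s →
      ∃ (T : ℝ) (N : ℕ), |T| ≤ e₁ / S.rho ^ 2 ∧ 5 * S.L ≤ N * S.h ∧ (N : ℤ) ≤ Δ ∧
        HT (cut S (m + Δ)) e₁ (5 * (C / (K : ℝ) ^ 2)) ν θ F T N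

end Pool.Agent.H78.GX.H78.GS
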